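import Mathlib

set_option autoImplicit false

namespace Pool.Agent.Results.MP_12b847_ag.Q1

open MvPolynomial

def G {n : ℕ} (p : MvPolynomial (Fin n) ℝ) : Prop :=
  (∀ i, degreeOf i p ≤ 1) ∧ p.totalDegree ≤ 4

variable {n : ℕ}

theorem G.add {p q : MvPolynomial (Fin n) ℝ} (hp : G p) (hq : G q) : G (p + q) :=
  ⟨fun i => (degreeOf_add_le i p q).trans (max_le (hp.1 i) (hq.1 i)),
    (totalDegree_add p q).trans (max_le hp.2 hq.2)⟩

theorem G.cmul {p : MvPolynomial (Fin n) ℝ} (c : ℝ) (hp : G p) : G (C c * p) :=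
  ⟨fun i => (degreeOf_mul_le i _ p).trans (by simpa [degreeOf_C] using hp.1 i),
    (totalDegree_mul _ p).trans (by simpa using hp.2)⟩

theorem G_sum {ι : Type} (s : Finset ι) (f : ι → MvPolynomial (Fin n) ℝ) (h : ∀ i ∈ s, G (f i)) :
    G (∑ i ∈ s, f i) :=
  Finset.sum_induction f G (fun _ _ => G.add) ⟨fun i => by simp, by simp⟩ h

theorem G_prod (S : Finset (Fin n)) (h : S.card ≤ 4) : G (∏ j ∈ S, X j) := by
  refine ⟨fun i => (degreeOf_prod_le i S _).trans ?_, (totalDegree_finsetProd S _).trans ?_⟩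
  · simp only [degreeOf_X]
    rw [Finset.sum_ite_eq]; split_ifs <;> simp
  · simpa using h

theorem G_two {a b : Fin n} (h : a ≠ b) : G (X a * X b : MvPolynomial (Fin n) ℝ) := by
  have := G_prod {a, b} (Finset.card_le_two.trans (by norm_num))
  rwa [Finset.prod_pair h] at this

noncomputable def Sq (a : Fin n) : MvPolynomial (Fin n) ℝ :=
  C (-1) * ∑ b ∈ Finset.univ.erase a, X a * X b

theorem G_Sq (a : Fin n) : G (Sq a) :=
  (G_sum _ _ fun _ hb => G_two (Finset.ne_of_mem_erase hb).symm).cmul _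

theorem ev_Sq (x : Fin n → ℝ) (h : ∑ i, x i = 0) (a : Fin n) : eval x (Sq a) = x a ^ 2 := by
  have := Finset.add_sum_erase Finset.univ x (Finset.mem_univ a)
  simp only [Sq, map_mul, eval_C, map_sum, eval_X, ← Finset.mul_sum]
  have e : ∑ i ∈ Finset.univ.erase a, x i = - x a := by linarith
  rw [e]; ring

noncomputable def blk (v : Fin 4 → Fin n) : MvPolynomial (Fin n) ℝ :=
  (∏ k, X (v k)) + C (-7) * (X (v 0) * X (v 1)) + C (-1) * (X (v 2) * X (v 3)) + C 1 * 1 +
    C 6 * Sq (v 0) + C 6 * Sq (v 1) + C 3 * Sq (v 2) + C 3 * Sq (v 3) +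
    C (-6) * (X (v 0) * X (v 2)) + C (-6) * (X (v 1) * X (v 3))

theorem G_blk (v : Fin 4 → Fin n) (hv : Function.Injective v) : G (blk v) := by
  have a : G (∏ k, X (v k) : MvPolynomial (Fin n) ℝ) := by
    have := G_prod (Finset.univ.map ⟨v, hv⟩) (by simp)
    rwa [Finset.prod_map] at this
  have o : G (1 : MvPolynomial (Fin n) ℝ) := by simpa using G_prod (∅ : Finset (Fin n)) (by simp)
  have t : ∀ k l : Fin 4, k ≠ l → G (X (v k) * X (v l) : MvPolynomial (Fin n) ℝ) :=
    fun k l h => G_two (hv.ne h)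
  exact ((((((((a.add ((t 0 1 (by decide)).cmul _)).add ((t 2 3 (by decide)).cmul _)).add
    (o.cmul _)).add ((G_Sq _).cmul _)).add ((G_Sq _).cmul _)).add ((G_Sq _).cmul _)).add
    ((G_Sq _).cmul _)).add ((t 0 2 (by decide)).cmul _)).add ((t 1 3 (by decide)).cmul _)

def g (a b c d : ℝ) : ℝ := (a * b - 1) * (c * d - 1) + 3 * ((a - c) ^ 2 + (b - d) ^ 2 + (a - b) ^ 2)

theorem ev_blk (x : Fin n → ℝ) (h : ∑ i, x i = 0) (v : Fin 4 → Fin n) :
    eval x (blk v) = g (x (v 0)) (x (v 1)) (x (v 2)) (x (v 3)) := by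
  simp only [blk, map_add, map_mul, eval_C, eval_X, ev_Sq x h, Fin.prod_univ_four, map_one, g]
  ring

theorem g_low {a b c d : ℝ} (hb : b ^ 2 ≤ 4) (hc : c ^ 2 ≤ 4) :
    (a * b + c * d - 2) ^ 2 / 4 + (a - c) ^ 2 + (b - d) ^ 2 + (a - b) ^ 2 ≤ g a b c d := by
  have e : g a b c d = (a * b + c * d - 2) ^ 2 / 4 - (c * (d - b) + b * (c - a)) ^ 2 / 4 +
    3 * ((a - c) ^ 2 + (b - d) ^ 2 + (a - b) ^ 2) := by unfold g; ring
  have h1 := mul_le_mul_of_nonneg_right hb (sq_nonneg (c - a))
  have h2 := mul_le_mul_of_nonneg_right hc (sq_nonneg (d - b))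
  have h3 := sq_nonneg (c * (d - b) - b * (c - a))
  rw [e]; nlinarith [sq_nonneg (a - b)]

theorem result : ∀ B : ℕ, ∃ (n : ℕ) (P Q : MvPolynomial (Fin n) ℝ), 1 ≤ n ∧
    (∀ i, degreeOf i P ≤ 1) ∧ (∀ i, degreeOf i Q ≤ 1) ∧ P.totalDegree ≤ 4 ∧ Q.totalDegree ≤ 4 ∧
    (B : ℕ∞) ≤ ENat.card (ConnectedComponents {x : Fin n → ℝ // eval x P = 0 ∧ eval x Q = 0}) := by
  intro m
  let e := Fintype.equivFin (Option (Fin m × Fin 4))
  let v : Fin m → Fin 4 → Fin (Fintype.card (Option (Fin m × Fin 4))) := fun i k => e (some (i, k))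
  have hv : ∀ i, Function.Injective (v i) := fun i k l h => by simpa [v] using h
  have gP : G (∑ i, X i : MvPolynomial (Fin (Fintype.card (Option (Fin m × Fin 4)))) ℝ) :=
    G_sum _ _ fun i _ => by simpa using G_prod {i} (by simp)
  have gQ : G (∑ i, blk (v i)) := G_sum _ _ fun i _ => G_blk _ (hv i)
  refine ⟨_, ∑ i, X i, ∑ i, blk (v i), by simp, gP.1, gQ.1, gP.2, gQ.2, ?_⟩
  let s : Fin m → Fin m → ℝ := fun j i => if i = j then -1 else 1
  have hs : ∀ j i, s j i = 1 ∨ s j i = -1 := fun j i => by simp only [s]; split_ifs <;> simp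
  let q : Fin m → Option (Fin m × Fin 4) → ℝ := fun j o =>
    o.elim (- ∑ z : Fin m × Fin 4, s j z.1) fun z => s j z.1
  let p : Fin m → Fin (Fintype.card (Option (Fin m × Fin 4))) → ℝ := fun j t => q j (e.symm t)
  have pv : ∀ j i k, p j (v i k) = s j i := fun j i k => by simp [p, v, q]
  have p0 : ∀ j, ∑ t, p j t = 0 := fun j => by
    rw [show ∑ t, p j t = ∑ o, q j o from Equiv.sum_comp e.symm (q j), Fintype.sum_option]
    simp [q]
  have pm : ∀ j, eval (p j) (∑ i, X i) = 0 ∧ eval (p j) (∑ i, blk (v i)) = 0 := fun j => by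
    refine ⟨by simpa using p0 j, ?_⟩
    rw [map_sum]
    refine Finset.sum_eq_zero fun i _ => ?_
    rw [ev_blk _ (p0 j), pv, pv, pv, pv]
    rcases hs j i with h | h <;> rw [h] <;> norm_num [g]
  let Z := {x : Fin (Fintype.card (Option (Fin m × Fin 4))) → ℝ //
    eval x (∑ i, X i) = 0 ∧ eval x (∑ i, blk (v i)) = 0}
  have clo : ∀ j, IsClopen {x : Z | ∀ i k, x.1 (v i k) = s j i} := by
    intro j
    constructor
    · simp only [Set.setOf_forall]
      exact isClosed_iInter fun i => isClosed_iInter fun k => 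
        isClosed_eq ((continuous_apply _).comp continuous_subtype_val) continuous_const
    · have : {x : Z | ∀ i k, x.1 (v i k) = s j i} = {x : Z | ∀ i k, |x.1 (v i k) - s j i| < 1} := by
        ext ⟨x, h1, h2⟩
        refine ⟨fun h i k => by
          have : x (v i k) = s j i := h i k
          show |x (v i k) - s j i| < 1
          rw [this]; simp, fun h => ?_⟩
        have h0 : ∑ t, x t = 0 := by simpa using h1
        have bd : ∀ i k, x (v i k) ^ 2 ≤ 4 := fun i k => by
          have := abs_lt.1 (h i k)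
          rcases hs j i with c | c <;> rw [c] at this <;> nlinarith [this.1, this.2]
        rw [map_sum] at h2
        simp only [ev_blk x h0] at h2
        have lo := fun i => g_low (a := x (v i 0)) (d := x (v i 3)) (bd i 1) (bd i 2)
        have z := (Finset.sum_eq_zero_iff_of_nonneg fun i _ =>
          le_trans (by positivity) (lo i)).1 h2
        intro i
        have l := lo i
        rw [z i (Finset.mem_univ i)] at l
        have s1 := sq_nonneg (x (v i 0) * x (v i 1) + x (v i 2) * x (v i 3) - 2)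
        have s2 := sq_nonneg (x (v i 0) - x (v i 2))
        have s3 := sq_nonneg (x (v i 1) - x (v i 3))
        have s4 := sq_nonneg (x (v i 0) - x (v i 1))
        have e1 : x (v i 0) * x (v i 1) + x (v i 2) * x (v i 3) - 2 = 0 :=
          pow_eq_zero_iff (two_ne_zero) |>.1 (by linarith)
        have e2 : x (v i 0) - x (v i 2) = 0 := pow_eq_zero_iff (two_ne_zero) |>.1 (by linarith)
        have e3 : x (v i 1) - x (v i 3) = 0 := pow_eq_zero_iff (two_ne_zero) |>.1 (by linarith)
        have e4 : x (v i 0) - x (v i 1) = 0 := pow_eq_zero_iff (two_ne_zero) |>.1 (by linarith)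
        have a1 : x (v i 1) = x (v i 0) := by linarith
        have a2 : x (v i 2) = x (v i 0) := by linarith
        have a3 : x (v i 3) = x (v i 0) := by linarith
        rw [a1, a2, a3] at e1
        have f : (x (v i 0) - 1) * (x (v i 0) + 1) = 0 := by linarith
        have a0 : x (v i 0) = s j i := by
          have := abs_lt.1 (h i 0)
          rcases mul_eq_zero.1 f with u | u <;> rcases hs j i with c | c <;> rw [c] at this ⊢ <;>
            simp only at this <;> linarith [this.1, this.2]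
        intro k
        fin_cases k
        exacts [a0, a1.trans a0, a2.trans a0, a3.trans a0]
      rw [this]
      simp only [Set.setOf_forall]
      exact isOpen_iInter_of_finite fun i => isOpen_iInter_of_finite fun k =>
        isOpen_lt ((((continuous_apply _).comp continuous_subtype_val).sub continuous_const).abs)
          continuous_const
  have inj : Function.Injective fun j : Fin m => ConnectedComponents.mk (⟨p j, pm j⟩ : Z) := by
    intro j k h
    have a : (⟨p j, pm j⟩ : Z) ∈ connectedComponent (⟨p k, pm k⟩ : Z) :=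
      ConnectedComponents.coe_eq_coe'.1 h
    have b := (clo k).connectedComponent_subset (x := ⟨p k, pm k⟩) (fun i l => pv k i l) a j 0
    simp only [pv, s, if_true] at b
    by_contra c
    rw [if_neg c] at b
    norm_num at b
  simpa using ENat.card_le_card_of_injective inj

end Pool.Agent.Results.MP_12b847_ag.Q1
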